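import Mathlib
import Pool.Agent.H16.IZ

set_option autoImplicit false

namespace Pool.Agent.Results.MP_5bed1d_al.Yes

open Pool.Agent.H16.IZ

theorem result (X Y : Var) (hX : ¬ ZM ≤ X) (hY : ¬ ZM ≤ Y) : ¬ ZM ≤ X ⊔ Y :=
  zero_dist hX hY

end Pool.Agent.Results.MP_5bed1d_al.Yes
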